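import Pool.Agent.Lib.MP_56fddc_gt.Final

/-!
# A planar convex body that is not an ellipse, with homothetic bodies of flotation and buoyancy

We answer Q1 of MP_56fddc_gt in the negative.  The example is the (affine regular) hexagon with
vertices `±(1,0), ±(0,1), ±(1,-1)` (of area `3`) and `δ = 1/2`; the body of buoyancy is the image
of the body of flotation under the dilation `x ↦ (4/3) x`.
-/

open MeasureTheory

namespace Pool.Agent.Results.MP_56fddc_gt.HexagonCounterexample

open Pool.Agent.Lib.MP_56fddc_gt

/-- There are a convex body `K` in the plane and `δ` with `0 < δ < Vol(K)` such that the body of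
flotation and the body of buoyancy of `K` for `δ` are homothetic, but `K` is not an ellipsoid. -/
theorem result : ∃ (K : Set (E 2)) (δ : ℝ), IsConvexBody K ∧ 0 < δ ∧
    ENNReal.ofReal δ < volume K ∧
    AreHomothetic (bodyOfFlotation K δ) (bodyOfBuoyancy K δ) ∧ ¬ IsEllipsoid K :=
  ⟨hex, 1 / 2, isConvexBody_hex, by norm_num, half_lt_volume_hex, areHomothetic_hex,
    not_isEllipsoid_hex⟩

end Pool.Agent.Results.MP_56fddc_gt.HexagonCounterexample
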